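import Pool.Agent.helper66.FO.Spec
import Pool.Agent.helper32.NN.All
import Pool.Agent.helper61.PN.Lin

/-! # Project FO, row NFS: one step -/

set_option autoImplicit false

open Submodule

noncomputable section

namespace Pool.Agent.FO

open Pool.Agent.NN Pool.Agent.helper61.PN

universe u v

/-- finite linear combinations of operators are operators. -/
lemma NFS_opr {K : Type u} {U : Type v} [Field K] [Ring U] [Algebra K U] {ι : Type*} [Fintype ι]
    (n : ι → ℕ) (p q : (m : ι) → Fin (n m) → U) (S : Submodule K U) (hp : ∀ m i, p m i ∈ S)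
    (hq : ∀ m i, q m i ∈ S) (w : ι → K) :
    ∃ (N : ℕ) (p' q' : Fin N → U), (∀ i, p' i ∈ S) ∧ (∀ i, q' i ∈ S) ∧
      ∀ x, Opr N p' q' x = ∑ m, w m • Opr (n m) (p m) (q m) x := by
  classical
  let e := Fintype.equivFin (Σ m : ι, Fin (n m))
  refine ⟨Fintype.card (Σ m : ι, Fin (n m)), fun i => w (e.symm i).1 • p (e.symm i).1 (e.symm i).2,
    fun i => q (e.symm i).1 (e.symm i).2, fun i => S.smul_mem _ (hp _ _), fun i => hq _ _,
    fun x => ?_⟩
  unfold Opr
  refine (Equiv.sum_comp e.symm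
    (fun s : (Σ m : ι, Fin (n m)) => w s.1 • p s.1 s.2 * x * q s.1 s.2)).trans ?_
  rw [Fintype.sum_sigma]
  refine Finset.sum_congr rfl fun m _ => ?_
  rw [Finset.smul_sum]
  refine Finset.sum_congr rfl fun i _ => ?_
  rw [smul_mul_assoc, smul_mul_assoc]

/-- words of length less than `n` containing the letter `0`. -/
abbrev NFS_I (d n : ℕ) : Type := {m : List (Fin (d + 1)) // m.length < n ∧ (0 : Fin (d + 1)) ∈ m}

instance NFS_finite (d n : ℕ) : Finite (NFS_I d n) := by
  have h : Set.Finite {m : List (Fin (d + 1)) | m.length < n ∧ (0 : Fin (d + 1)) ∈ m} :=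
    (List.finite_length_lt (Fin (d + 1)) n).subset (fun m hm => hm.1)
  exact h.to_subtype

instance NFS_fintype (d n : ℕ) : Fintype (NFS_I d n) := Fintype.ofFinite _

/-- the evaluation map. -/
def NFS_Phi (K : Type u) {U : Type v} [Field K] [Ring U] [Algebra K U] {d : ℕ} (n : ℕ)
    (b : Fin d → U) (y : U) : (NFS_I d n → K) →ₗ[K] U :=
  Fintype.linearCombination K (fun m : NFS_I d n => val b y m.1)

section
variable {K : Type u} {U : Type v} [Field K] [Ring U] [Algebra K U] {d : ℕ}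

lemma NFS_Phi_apply (n : ℕ) (b : Fin d → U) (y : U) (w : NFS_I d n → K) :
    NFS_Phi K n b y w = ∑ m, w m • val b y m.1 := by
  unfold NFS_Phi
  rw [Fintype.linearCombination_apply]

lemma NFS_val_append (b : Fin d → U) (y : U) (m m' : List (Fin (d + 1))) :
    val b y (m ++ m') = val b y m * val b y m' := by
  unfold val
  rw [List.map_append, List.prod_append]

lemma NFS_val_cons (b : Fin d → U) (y : U) (a : Fin (d + 1)) (m : List (Fin (d + 1))) :
    val b y (a :: m) = (Fin.cons y b : Fin (d + 1) → U) a * val b y m := by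
  unfold val
  rw [List.map_cons, List.prod_cons]

lemma NFS_val_pow (I : Submodule K U) (b : Fin d → U) (y : U) (hy : y ∈ I) (hb : ∀ i, b i ∈ I)
    (m : List (Fin (d + 1))) : val b y m ∈ I ^ m.length := by
  induction m with
  | nil =>
    unfold val
    rw [List.map_nil, List.prod_nil, List.length_nil, pow_zero]
    exact Submodule.one_le.1 le_rfl
  | cons a m ih =>
    rw [NFS_val_cons, List.length_cons, pow_succ']
    refine mul_mem_mul ?_ ih
    refine Fin.cases ?_ (fun i => ?_) a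
    · rw [Fin.cons_zero]; exact hy
    · rw [Fin.cons_succ]; exact hb i

lemma NFS_pow_le (A : Submodule K U) (hA : A * A ≤ A) (l : ℕ) (hl : 1 ≤ l) : A ^ l ≤ A := by
  induction l with
  | zero => omega
  | succ l ih =>
    rcases Nat.eq_zero_or_pos l with h0 | h0
    · subst h0
      rw [zero_add, pow_one]
    · rw [pow_succ]
      exact le_trans (mul_le_mul' (ih h0) le_rfl) hA

lemma NFS_pow_bot (I : Submodule K U) (n l : ℕ) (hn : I ^ n = ⊥) (hl : n ≤ l) : I ^ l = ⊥ := by
  obtain ⟨j, rfl⟩ := Nat.exists_eq_add_of_le hl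
  rw [pow_add, hn, Submodule.bot_mul]

/-- all words containing `0` lie in the range. -/
lemma NFS_mem_range (I : Submodule K U) (n : ℕ) (hn : I ^ n = ⊥) (b : Fin d → U) (y : U)
    (hy : y ∈ I) (hb : ∀ i, b i ∈ I) (m : List (Fin (d + 1))) (h0 : (0 : Fin (d + 1)) ∈ m) :
    val b y m ∈ LinearMap.range (NFS_Phi K n b y) := by
  classical
  by_cases hm : m.length < n
  · refine ⟨Pi.single ⟨m, hm, h0⟩ 1, ?_⟩
    rw [NFS_Phi_apply, Finset.sum_eq_single (⟨m, hm, h0⟩ : NFS_I d n)]
    · rw [Pi.single_eq_same, one_smul]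
    · intro m' _ hne
      rw [Pi.single_eq_of_ne hne, zero_smul]
    · intro h
      exact absurd (Finset.mem_univ _) h
  · have h1 := NFS_val_pow I b y hy hb m
    rw [NFS_pow_bot I n _ hn (not_lt.1 hm), Submodule.mem_bot] at h1
    rw [h1]
    exact Submodule.zero_mem _

lemma NFS_range_eq (n : ℕ) (b : Fin d → U) (y : U) :
    LinearMap.range (NFS_Phi K n b y) =
      span K (Set.range (fun m : NFS_I d n => val b y m.1)) := by
  unfold NFS_Phi
  rw [Fintype.range_linearCombination]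

/-- the space `B ⊔ range Φ_y` is closed under multiplication modulo `T`. -/
lemma NFS_closed (I : Submodule K U) (n : ℕ) (hn : I ^ n = ⊥) (b : Fin d → U) (y : U)
    (hy : y ∈ I) (hb : ∀ i, b i ∈ I) (B T : Submodule K U) (hB : span K (Set.range b) = B)
    (hBB : B * B ≤ B ⊔ T) :
    (B ⊔ LinearMap.range (NFS_Phi K n b y)) * (B ⊔ LinearMap.range (NFS_Phi K n b y)) ≤
      (B ⊔ LinearMap.range (NFS_Phi K n b y)) ⊔ T := by
  set R := LinearMap.range (NFS_Phi K n b y) with hR
  have hmem := NFS_mem_range I n hn b y hy hb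
  have hRe := NFS_range_eq (K := K) n b y
  have h1 : R * R ≤ R := by
    rw [hR, hRe, Submodule.span_mul_span, span_le, ← hRe]
    rintro _ ⟨_, ⟨m, rfl⟩, _, ⟨m', rfl⟩, rfl⟩
    have h2 := hmem (m.1 ++ m'.1) (List.mem_append_left _ m.2.2)
    rw [NFS_val_append] at h2
    exact h2
  have h2 : B * R ≤ R := by
    rw [← hB, hR, hRe, Submodule.span_mul_span, span_le, ← hRe]
    rintro _ ⟨_, ⟨i, rfl⟩, _, ⟨m, rfl⟩, rfl⟩
    have h2 := hmem (i.succ :: m.1) (List.mem_cons_of_mem _ m.2.2)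
    rw [NFS_val_cons, Fin.cons_succ] at h2
    exact h2
  have h3 : R * B ≤ R := by
    rw [← hB, hR, hRe, Submodule.span_mul_span, span_le, ← hRe]
    rintro _ ⟨_, ⟨m, rfl⟩, _, ⟨i, rfl⟩, rfl⟩
    have h2 := hmem (m.1 ++ [i.succ]) (List.mem_append_left _ m.2.2)
    rw [NFS_val_append, NFS_val_cons, Fin.cons_succ] at h2
    unfold val at h2 ⊢
    rw [List.map_nil, List.prod_nil, mul_one] at h2
    exact h2
  rw [Submodule.sup_mul, Submodule.mul_sup, Submodule.mul_sup]
  refine sup_le (sup_le (hBB.trans (sup_le_sup_right le_sup_left _)) ?_) (sup_le ?_ ?_)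
  · exact h2.trans (le_sup_right.trans le_sup_left)
  · exact h3.trans (le_sup_right.trans le_sup_left)
  · exact h1.trans (le_sup_right.trans le_sup_left)

/-- the derivative of `Φ` in the direction `y'`. -/
def NFS_D (b : Fin d → U) (n : ℕ) (y : U) (w : NFS_I d n → K) (y' : U) : U :=
  ∑ m, w m • DD b y y' m.1

/-- `Φ` along a line. -/
lemma NFS_line (hLTW : LTW_stmt.{u, v}) (A : Submodule K U) (hA : A * A ≤ A) (n : ℕ)
    (b : Fin d → U) (hb : ∀ i, b i ∈ A) (y : U) (hy : y ∈ A) (y' : U) (w : NFS_I d n → K) :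
    ∃ (M : ℕ) (g : ℕ → U), 0 < M ∧ g 0 = NFS_D b n y w y' ∧
      ∀ c : K, NFS_Phi K n b (y + c • y') w =
        NFS_Phi K n b y w + c • ∑ i ∈ Finset.range M, c ^ i • g i := by
  classical
  choose M g hM hg0 hg using fun m : NFS_I d n => (hLTW K U A hA d b y hb hy m.1).1 y'
  refine ⟨(∑ m, M m) + 1, fun i => ∑ m, w m • (if i < M m then g m i else 0), Nat.succ_pos _, ?_,
    fun c => ?_⟩
  · unfold NFS_D
    refine Finset.sum_congr rfl fun m _ => ?_
    rw [if_pos (hM m), hg0]
  · rw [NFS_Phi_apply, NFS_Phi_apply]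
    have h1 : ∑ i ∈ Finset.range ((∑ m, M m) + 1),
        c ^ i • (∑ m, w m • (if i < M m then g m i else 0)) =
        ∑ m, w m • ∑ i ∈ Finset.range (M m), c ^ i • g m i := by
      simp_rw [Finset.smul_sum]
      rw [Finset.sum_comm]
      refine Finset.sum_congr rfl fun m _ => ?_
      have h2 : Finset.range (M m) ⊆ Finset.range ((∑ m, M m) + 1) := by
        intro i hi
        rw [Finset.mem_range] at hi ⊢
        have h3 : M m ≤ ∑ m, M m := Finset.single_le_sum (fun _ _ => Nat.zero_le _)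
          (Finset.mem_univ m)
        omega
      rw [← Finset.sum_subset h2]
      · refine Finset.sum_congr rfl fun i hi => ?_
        rw [if_pos (Finset.mem_range.1 hi), smul_comm]
      · intro i _ hi
        rw [if_neg (fun h => hi (Finset.mem_range.2 h)), smul_zero, smul_zero]
    rw [h1, Finset.smul_sum, ← Finset.sum_add_distrib]
    refine Finset.sum_congr rfl fun m _ => ?_
    rw [hg m c, smul_add, smul_comm c (w m)]

/-- the derivative is an operator. -/
lemma NFS_D_opr (hLTW : LTW_stmt.{u, v}) (A : Submodule K U) (hA : A * A ≤ A) (n : ℕ)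
    (b : Fin d → U) (hb : ∀ i, b i ∈ A) (y : U) (hy : y ∈ A) (w : NFS_I d n → K) :
    ∃ (N : ℕ) (p q : Fin N → U), (∀ i, p i ∈ 1 ⊔ A) ∧ (∀ i, q i ∈ 1 ⊔ A) ∧
      ∀ y', NFS_D b n y w y' = Opr N p q y' := by
  choose n' p q hp hq h using fun m : NFS_I d n => (hLTW K U A hA d b y hb hy m.1).2.2
  obtain ⟨N, p', q', hp', hq', h'⟩ := NFS_opr n' p q (1 ⊔ A) hp hq w
  refine ⟨N, p', q', hp', hq', fun y' => ?_⟩
  rw [h' y']
  unfold NFS_D
  exact Finset.sum_congr rfl fun m _ => by rw [h m y']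

/-- Euler's formula. -/
lemma NFS_D_self (hLTW : LTW_stmt.{u, v}) (A : Submodule K U) (hA : A * A ≤ A) (n : ℕ)
    (b : Fin d → U) (hb : ∀ i, b i ∈ A) (y : U) (hy : y ∈ A) (w : NFS_I d n → K) :
    NFS_D b n y w y = NFS_Phi K n b y (fun m => (m.1.count 0 : K) * w m) := by
  rw [NFS_Phi_apply]
  unfold NFS_D
  refine Finset.sum_congr rfl fun m _ => ?_
  rw [(hLTW K U A hA d b y hb hy m.1).2.1, smul_smul, mul_comm]

end

lemma NFS_Opr_add {U : Type v} [Ring U] (n : ℕ) (p q : Fin n → U) (x y : U) :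
    Opr n p q (x + y) = Opr n p q x + Opr n p q y := by
  unfold Opr
  rw [← Finset.sum_add_distrib]
  refine Finset.sum_congr rfl fun i _ => ?_
  rw [mul_add, add_mul]

lemma NFS_Opr_mul {U : Type v} [Ring U] (n : ℕ) (p q : Fin n → U) (x j : U) :
    Opr n p q (x * j) = Opr n p (fun i => j * q i) x := by
  unfold Opr
  refine Finset.sum_congr rfl fun i _ => ?_
  simp only [mul_assoc]

theorem NFS (hLTW : LTW_stmt.{u, v}) : NFS_stmt.{u, v} := by
  intro K U _ _ _ _ A hC T hT hH B hBA hBfg hBB z hzA hz k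
  have : Infinite K := CharZero.infinite K
  have hPER : A * A = A := all_PER K U A hC
  have hAA := hC.mul
  obtain ⟨m₀, hm₀⟩ : ∃ m : ℕ, ¬ A * TT A m * A ≤ TT A k := by
    by_contra hcon
    push Not at hcon
    have h1 : A ≤ TT A k := by
      have h2 : A * A * A ≤ TT A k := by
        rw [Submodule.mul_le]
        intro ab hab c hc
        refine Submodule.mul_induction_on hab (fun a ha b hb => ?_) (fun x y hx hy => ?_)
        · obtain ⟨m, hm⟩ := (all_GEN K U A hC).2.2 b hb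
          exact hcon m (mul_mem_mul (mul_mem_mul ha hm) hc)
        · rw [add_mul]
          exact add_mem hx hy
      rwa [hPER, hPER] at h2
    exact (all_TKP K U A hC k).2.1 (le_antisymm (all_TKP K U A hC k).1.1 h1)
  set J := A * TT A m₀ * A with hJdef
  obtain ⟨hTid, _, ⟨n₁, hn₁⟩, _⟩ := all_TKP K U A hC m₀
  have hJT : J ≤ TT A m₀ := le_trans (mul_le_mul' hTid.2.1 le_rfl) hTid.2.2
  have hJA : J ≤ A := hJT.trans hTid.1
  have hAJ : A * J = J := by rw [hJdef, ← mul_assoc, ← mul_assoc, hPER]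
  have hJA' : J * A = J := by rw [hJdef, mul_assoc, hPER]
  have hJid : IsId A J := ⟨hJA, hAJ.le, hJA'.le⟩
  have hJn : J ^ n₁ = ⊥ := le_bot_iff.1 ((pow_le_pow_left' hJT n₁).trans hn₁.le)
  obtain ⟨J₁, hJ₁, hBJ₁, hJ₁n⟩ := all_FDI K U A hC B hBA hBfg
  obtain ⟨hI, n, hn⟩ := all_SUM K U A J J₁ hAA hJid hJ₁ ⟨n₁, hJn⟩ hJ₁n
  obtain ⟨d, b, hb⟩ := Submodule.fg_iff_exists_fin_generating_family.1 hBfg
  have hbB : ∀ i, b i ∈ B := fun i => hb ▸ subset_span ⟨i, rfl⟩
  have hbI : ∀ i, b i ∈ J ⊔ J₁ := fun i => (le_sup_right : J₁ ≤ J ⊔ J₁) (hBJ₁ (hbB i))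
  have hbA : ∀ i, b i ∈ A := fun i => hBA (hbB i)
  set V₀ : Submodule K U := B ⊔ T ⊔ span K {z} with hV₀
  set Φ : U → (NFS_I d n → K) →ₗ[K] (U ⧸ V₀) := fun y => V₀.mkQ.comp (NFS_Phi K n b y) with hΦ
  set r : U → ℕ := fun y => Module.finrank K (LinearMap.range (Φ y)) with hr
  have hΦa : ∀ y w, Φ y w = V₀.mkQ (NFS_Phi K n b y w) := fun y w => rfl
  have hpoly : ∀ y ∈ A, ∀ y' : U, ∀ w, IsPoly (fun c : K => Φ (y + c • y') w) := by
    intro y hy y' w
    obtain ⟨M, g, hM, hg0, hg⟩ := NFS_line hLTW A hAA n b hbA y hy y' w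
    refine ⟨M + 1, fun i => Nat.casesOn i (V₀.mkQ (NFS_Phi K n b y w)) (fun i => V₀.mkQ (g i)),
      fun c => ?_⟩
    rw [Finset.sum_range_succ', pow_zero, one_smul]
    simp only [hΦa]
    rw [hg c, map_add, map_smul, map_sum, add_comm]
    congr 1
    rw [Finset.smul_sum]
    refine Finset.sum_congr rfl fun i _ => ?_
    rw [map_smul, smul_smul, pow_succ, mul_comm]
  obtain ⟨y₁, hy₁, hmax₁⟩ : ∃ y₁ ∈ J, ∀ y ∈ J, r y ≤ r y₁ := by
    have hne : (r '' (J : Set U)).Nonempty := ⟨_, 0, J.zero_mem, rfl⟩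
    have hbd : BddAbove (r '' (J : Set U)) := by
      refine ⟨Module.finrank K (NFS_I d n → K), ?_⟩
      rintro _ ⟨y, _, rfl⟩
      exact LinearMap.finrank_range_le _
    obtain ⟨y₁, hy₁, h1⟩ := Nat.sSup_mem hne hbd
    refine ⟨y₁, hy₁, fun y hy => ?_⟩
    rw [h1]
    exact le_csSup hbd ⟨y, hy, rfl⟩
  obtain ⟨η, hηJ, hηT⟩ : ∃ η ∈ J, η ∉ TT A k := SetLike.not_le_iff_exists.1 hm₀
  obtain ⟨y, hyJ, hyT, hmax⟩ : ∃ y ∈ J, y ∉ TT A k ∧ ∀ y' ∈ J, r y' ≤ r y := by
    by_cases h : y₁ ∈ TT A k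
    · obtain ⟨c, hc, hrc⟩ := rank_open (fun c : K => Φ (y₁ + c • η)) (hpoly y₁ (hJA hy₁) η)
      refine ⟨y₁ + c • η, J.add_mem hy₁ (J.smul_mem c hηJ), fun h2 => ?_, fun y' hy' => ?_⟩
      · have h3 : c • η ∈ TT A k := by
          have := (TT A k).sub_mem h2 h
          rwa [add_sub_cancel_left] at this
        exact hηT (((TT A k).smul_mem_iff hc).1 h3)
      · have h4 := hmax₁ y' hy'
        have h5 : y₁ + (0 : K) • η = y₁ := by rw [zero_smul, add_zero]
        have h6 : r (y₁ + (0 : K) • η) ≤ r (y₁ + c • η) := hrc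
        rw [h5] at h6
        exact h4.trans h6
    · exact ⟨y₁, hy₁, h, hmax₁⟩
  have hyA := hJA hyJ
  have hyI : y ∈ J ⊔ J₁ := (le_sup_left : J ≤ J ⊔ J₁) hyJ
  have hRfg : (LinearMap.range (NFS_Phi K n b y)).FG := by
    rw [NFS_range_eq]
    exact Submodule.fg_span (Set.finite_range _)
  -- the tangent argument
  have key : ∀ w, NFS_Phi K n b y w ∈ V₀ →
      NFS_Phi K n b y (fun m => (m.1.count 0 : K) * w m) ∈ T := by
    intro w hw
    have ha : ∀ y' ∈ J, NFS_D b n y w y' ∈ LinearMap.range (NFS_Phi K n b y) ⊔ V₀ := by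
      intro y' hy'
      obtain ⟨M, g, hM, hg0, hg⟩ := NFS_line hLTW A hAA n b hbA y hyA y' w
      have h1 := tangent (fun c : K => Φ (y + c • y')) (hpoly y hyA y')
        (fun u => by
          have h5 : y + (0 : K) • y' = y := by rw [zero_smul, add_zero]
          change r (y + u • y') ≤ r (y + (0 : K) • y')
          rw [h5]
          exact hmax _ (J.add_mem hyJ (J.smul_mem u hy'))) w M (fun i => V₀.mkQ (g i)) hM
        (fun u => by
          simp only [hΦa]
          rw [hg u, map_add, map_smul, map_sum]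
          have h0 : V₀.mkQ (NFS_Phi K n b y w) = 0 := by
            rw [Submodule.mkQ_apply]
            exact (Submodule.Quotient.mk_eq_zero _).2 hw
          rw [h0, zero_add]
          congr 1)
      obtain ⟨w', hw'⟩ := h1
      simp only [zero_smul, add_zero, hΦa] at hw'
      rw [← hg0]
      have h2 : NFS_Phi K n b y w' - g 0 ∈ V₀ := by
        rw [← Submodule.Quotient.mk_eq_zero V₀, Submodule.Quotient.mk_sub, sub_eq_zero]
        exact hw'
      have h3 : g 0 = NFS_Phi K n b y w' - (NFS_Phi K n b y w' - g 0) := by abel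
      rw [h3]
      exact sub_mem ((le_sup_left : _ ≤ LinearMap.range (NFS_Phi K n b y) ⊔ V₀) ⟨w', rfl⟩)
        ((le_sup_right : _ ≤ LinearMap.range (NFS_Phi K n b y) ⊔ V₀) h2)
    obtain ⟨N, p, q, hp, hq, hD⟩ := NFS_D_opr hLTW A hAA n b hbA y hyA w
    have hb' : ∀ j ∈ J, ∀ x ∈ A, Opr N p q (x * j) ∈ T := by
      intro j hj x hx
      rw [NFS_Opr_mul]
      refine hH N p (fun i => j * q i) hp (fun i => ?_)
        ⟨LinearMap.range (NFS_Phi K n b y) ⊔ (B ⊔ span K {z}),
          hRfg.sup (hBfg.sup (Submodule.fg_span (Set.finite_singleton z))), fun x hx => ?_⟩ x hx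
      · have h1 : A * (1 ⊔ A) ≤ 1 ⊔ A := by
          rw [Submodule.mul_sup, mul_one]
          exact (sup_le le_rfl hAA).trans le_sup_right
        exact h1 (mul_mem_mul (hJA hj) (hq i))
      · rw [← NFS_Opr_mul, ← hD]
        have h1 := ha (x * j) (hAJ ▸ mul_mem_mul hx hj)
        have h2 : LinearMap.range (NFS_Phi K n b y) ⊔ V₀ ≤
            LinearMap.range (NFS_Phi K n b y) ⊔ (B ⊔ span K {z}) ⊔ T := by
          refine sup_le ?_ (sup_le (sup_le ?_ ?_) ?_)
          · exact le_sup_left.trans le_sup_left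
          · exact (le_sup_left.trans le_sup_right).trans le_sup_left
          · exact le_sup_right
          · exact (le_sup_right.trans le_sup_right).trans le_sup_left
        exact h2 h1
    have hy2 : y ∈ A * J := by rw [hAJ]; exact hyJ
    have hc : Opr N p q y ∈ T := by
      refine Submodule.mul_induction_on hy2 (fun x hx j hj => hb' j hj x hx) (fun a c ha hc => ?_)
      rw [NFS_Opr_add]
      exact add_mem ha hc
    rw [← hD, NFS_D_self hLTW A hAA n b hbA y hyA w] at hc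
    exact hc
  refine ⟨B ⊔ LinearMap.range (NFS_Phi K n b y), le_sup_left, sup_le hBA ?_, hBfg.sup hRfg,
    NFS_closed (J ⊔ J₁) n hn b y hyI hbI B T hb hBB, fun hzmem => ?_, fun hle => ?_⟩
  · rw [NFS_range_eq, span_le]
    rintro _ ⟨m, rfl⟩
    exact NFS_pow_le A hAA _ (List.length_pos_of_mem m.2.2) (NFS_val_pow A b y hyA hbA m.1)
  · obtain ⟨x, hx, t, ht, hxt⟩ := Submodule.mem_sup.1 hzmem
    obtain ⟨β, hβ, _, ⟨w, rfl⟩, hβw⟩ := Submodule.mem_sup.1 hx
    have hTV : T ≤ V₀ := le_sup_right.trans le_sup_left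
    let E : (NFS_I d n → K) →ₗ[K] (NFS_I d n → K) :=
      LinearMap.pi (fun m => (m.1.count 0 : K) • LinearMap.proj m)
    have hE : ∀ w m, E w m = (m.1.count 0 : K) * w m := fun w m => rfl
    let S : Submodule K (NFS_I d n → K) := V₀.comap (NFS_Phi K n b y)
    have hES : ∀ w ∈ S, NFS_Phi K n b y (E w) ∈ T := fun w hw => key w hw
    have hinj : Function.Injective E := by
      rw [← LinearMap.ker_eq_bot, LinearMap.ker_eq_bot']
      intro w hw
      funext m
      have h1 := congrFun hw m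
      rw [hE, Pi.zero_apply] at h1
      rcases mul_eq_zero.1 h1 with h2 | h2
      · exact absurd (Nat.cast_eq_zero.1 h2) (List.count_pos_iff.2 m.2.2).ne'
      · exact h2
    have hsurj : Function.Surjective (E.restrict (p := S) (q := S) fun w hw => hTV (hES w hw)) := by
      rw [← LinearMap.injective_iff_surjective]
      intro w₁ w₂ h
      exact Subtype.ext (hinj (congrArg Subtype.val h))
    have hwS : w ∈ S := by
      change NFS_Phi K n b y w ∈ V₀
      have h1 : NFS_Phi K n b y w = z - β - t := by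
        rw [← hxt, ← hβw]
        abel
      rw [h1]
      exact sub_mem (sub_mem ((le_sup_right : _ ≤ V₀) (mem_span_singleton_self z))
        ((le_sup_left.trans le_sup_left : B ≤ V₀) hβ)) (hTV ht)
    obtain ⟨w', hw'⟩ := hsurj ⟨w, hwS⟩
    have h2 : E w'.1 = w := congrArg Subtype.val hw'
    have h3 := hES w'.1 w'.2
    rw [h2] at h3
    apply hz
    rw [← hxt, ← hβw, add_assoc]
    exact add_mem ((le_sup_left : B ≤ B ⊔ T) hβ) ((le_sup_right : T ≤ B ⊔ T) (add_mem h3 ht))
  · apply hyT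
    apply hle
    have h1 := NFS_mem_range (J ⊔ J₁) n hn b y hyI hbI [0] (List.mem_singleton.2 rfl)
    rw [NFS_val_cons, Fin.cons_zero] at h1
    unfold val at h1
    rw [List.map_nil, List.prod_nil, mul_one] at h1
    exact (le_sup_right : _ ≤ B ⊔ LinearMap.range (NFS_Phi K n b y)) h1

end Pool.Agent.FO
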